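import Mathlib
import Pool.Agent.N780.Defs
import Pool.Agent.N780.Final

set_option autoImplicit false

/-!
The `p`-curvature conjecture on the affine line without the `m`-th roots of unity, in particular on a sphere
with four punctures.
-/

namespace Pool.Agent.Results.MP_aa40d3_nt.RootsOfUnityComplement

open Pool.Agent.N780.PCurv

/-- **The `p`-curvature conjecture on the affine line without the `m`-th roots of unity.**

* If `∑_p log p / ((p - 1) p^(h(p))) < log (16^(1/m))`, then there is one finite extension of
  `ℂ(x)` which contains all solutions (power series at `0`) of all systems `(1 - x^m)^k Y' = A Y` of level `h(p)`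
  at all primes `p`.
* In particular, for every `m` there is a number `N` such that this holds for the systems of level `N` at the
  primes `p ≤ N` whose `p`-curvature vanishes for all primes `p > N`.
* For `m = 3` (a sphere with four punctures), this holds for the systems whose `p`-curvature
  vanishes for all primes `p` outside a set `S` with `∑_(p ∈ S) log p / p ≤ 0.16`, for instance `S = ∅`;
  the set `S` may be infinite. -/
theorem result :
    (∀ m : ℕ, m ≠ 0 → ∀ h : ℕ → ℕ,
      (Summable fun p : Nat.Primes => Real.log p / (((p : ℝ) - 1) * (p : ℝ) ^ h p)) →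
      ∑' p : Nat.Primes, Real.log p / (((p : ℝ) - 1) * (p : ℝ) ^ h p) < Real.log 16 / m →
      UniformlyAlgebraic 0 (1 - Polynomial.X ^ m) h) ∧
    (∀ m : ℕ, m ≠ 0 → ∃ N : ℕ, UniformlyAlgebraic 0 (1 - Polynomial.X ^ m) (upTo N)) ∧
    (∀ S : Set ℕ,
      (Summable fun p : Nat.Primes => S.indicator (fun p : ℕ => Real.log p / p) p) →
      ∑' p : Nat.Primes, S.indicator (fun p : ℕ => Real.log p / p) p ≤ 0.16 →
      UniformlyAlgebraic 0 (1 - Polynomial.X ^ 3) (outside S)) :=
  ⟨fun _ => Pool.Agent.N780.roots_general, Pool.Agent.N780.roots_upTo, Pool.Agent.N780.roots_thin⟩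

end Pool.Agent.Results.MP_aa40d3_nt.RootsOfUnityComplement
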