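import Mathlib
import Pool.Agent.N780.Defs
import Pool.Agent.N780.Final

set_option autoImplicit false

/-!
The `p`-curvature conjecture on the thrice punctured line, with a thin (possibly infinite) set of exceptional
primes, and with one finite extension of `ℂ(x)` for all systems.
-/

namespace Pool.Agent.Results.MP_aa40d3_nt.ThricePuncturedLine

open Pool.Agent.N780.PCurv

/-- **The `p`-curvature conjecture on the thrice punctured line outside thin sets of primes, with one finite
extension for all systems.** The base point is `(1 - i √3) / 2`.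

* If `∑_p log p / ((p - 1) p^(h(p))) < log (√3 · 16^(1/3)) = 1.47...`, then there is one finite extension of
  `ℂ(x)` which contains all solutions of all systems `(x (1 - x))^k Y' = A Y` of level `h(p)` at all primes `p`.
* In particular this holds for the systems whose `p`-curvature vanishes for all primes `p` outside a set `S`,
  if `∑_(p ∈ S) log p / p ≤ log 2 / 2 + log 3 / 3`; the set `S` may be infinite.
* For instance, this holds for the systems whose `p`-curvature vanishes for all `p ≥ 5`. -/
theorem result :
    (∀ h : ℕ → ℕ,
      (Summable fun p : Nat.Primes => Real.log p / (((p : ℝ) - 1) * (p : ℝ) ^ h p)) →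
      ∑' p : Nat.Primes, Real.log p / (((p : ℝ) - 1) * (p : ℝ) ^ h p) <
        Real.log 3 / 2 + Real.log 16 / 3 →
      UniformlyAlgebraic ⟨1 / 2, -(Real.sqrt 3 / 2)⟩ (Polynomial.X * (1 - Polynomial.X)) h) ∧
    (∀ S : Set ℕ,
      (Summable fun p : Nat.Primes => S.indicator (fun p : ℕ => Real.log p / p) p) →
      ∑' p : Nat.Primes, S.indicator (fun p : ℕ => Real.log p / p) p ≤
        Real.log 2 / 2 + Real.log 3 / 3 →
      UniformlyAlgebraic ⟨1 / 2, -(Real.sqrt 3 / 2)⟩ (Polynomial.X * (1 - Polynomial.X))
        (outside S)) ∧
    UniformlyAlgebraic ⟨1 / 2, -(Real.sqrt 3 / 2)⟩ (Polynomial.X * (1 - Polynomial.X))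
      (outside {2, 3}) :=
  ⟨Pool.Agent.N780.three_general, Pool.Agent.N780.three_thin, Pool.Agent.N780.three_23⟩

end Pool.Agent.Results.MP_aa40d3_nt.ThricePuncturedLine
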